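import Mathlib
import Pool.Agent.Helper40.Nil.Stmts2

/-!
# Hall's nilpotency criterion
-/

set_option autoImplicit false

namespace Pool.Agent.Helper40.Nil

universe u

section
variable {L : Type u} [Group L]

/-- iterated commutators with the whole group -/
def hall_it (X : Subgroup L) : ℕ → Subgroup L
  | 0 => X
  | n + 1 => ⁅hall_it X n, ⊤⁆

lemma hall_it_shift (X : Subgroup L) (n : ℕ) : hall_it ⁅X, ⊤⁆ n = hall_it X (n + 1) := by
  induction n with
  | zero => rfl
  | succ n ih =>
    show ⁅hall_it ⁅X, ⊤⁆ n, ⊤⁆ = ⁅hall_it X (n + 1), ⊤⁆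
    rw [ih]

lemma hall_it_add (X : Subgroup L) (m n : ℕ) : hall_it X (m + n) = hall_it (hall_it X m) n := by
  induction n with
  | zero => rfl
  | succ n ih =>
    show ⁅hall_it X (m + n), ⊤⁆ = ⁅hall_it (hall_it X m) n, ⊤⁆
    rw [ih]

lemma hall_it_mono {X Y : Subgroup L} (h : X ≤ Y) (n : ℕ) : hall_it X n ≤ hall_it Y n := by
  induction n with
  | zero => exact h
  | succ n ih => exact Subgroup.commutator_mono ih le_rfl

lemma hall_it_le {C : Subgroup L} (hC : C.Normal) (n : ℕ) : hall_it C n ≤ C := by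
  induction n with
  | zero => exact le_rfl
  | succ n ih =>
    exact (Subgroup.commutator_mono ih le_rfl).trans (Subgroup.commutator_le_left C ⊤)

/-- the three subgroups lemma -/
lemma hall_rot {C : Subgroup L} (hC : C.Normal) (A B D : Subgroup L)
    (h1 : ⁅⁅B, D⁆, A⁆ ≤ C) (h2 : ⁅⁅D, A⁆, B⁆ ≤ C) : ⁅⁅A, B⁆, D⁆ ≤ C := by
  have hker : (QuotientGroup.mk' C).ker = C := QuotientGroup.ker_mk' C
  have e : ∀ X : Subgroup L, X ≤ C ↔ X.map (QuotientGroup.mk' C) = ⊥ := by
    intro X
    rw [Subgroup.map_eq_bot_iff, hker]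
  rw [e] at h1 h2 ⊢
  rw [Subgroup.map_commutator, Subgroup.map_commutator] at h1 h2 ⊢
  exact Subgroup.commutator_commutator_eq_bot_of_rotate h1 h2

lemma hall_sup {X Y : Subgroup L} (hX : X.Normal) (hY : Y.Normal) (Z : Subgroup L)
    (hZ : Z.Normal) : ⁅X ⊔ Y, Z⁆ ≤ ⁅X, Z⁆ ⊔ ⁅Y, Z⁆ := by
  rw [Subgroup.commutator_le]
  intro g hg z hz
  obtain ⟨x, hx, y, hy, rfl⟩ := (Subgroup.mem_sup_of_normal_left).1 hg
  rw [commutatorElement_mul_left_eq_conj_mul]
  apply Subgroup.mul_mem
  · apply Subgroup.mem_sup_right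
    exact (Subgroup.commutator_normal Y Z).conj_mem _ (Subgroup.commutator_mem_commutator hy hz) _
  · exact Subgroup.mem_sup_left (Subgroup.commutator_mem_commutator hx hz)

lemma hall_it_sup {C : Subgroup L} (n : ℕ) : ∀ {X Y : Subgroup L}, X.Normal → Y.Normal →
    hall_it X n ≤ C → hall_it Y n ≤ C → hall_it (X ⊔ Y) n ≤ C := by
  induction n with
  | zero => intro X Y _ _ h1 h2; exact sup_le h1 h2
  | succ n ih =>
    intro X Y hX hY h1 h2
    rw [← hall_it_shift] at h1 h2 ⊢
    refine (hall_it_mono (hall_sup hX hY ⊤ inferInstance) n).trans ?_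
    exact ih inferInstance inferInstance h1 h2

lemma hall_T {C A' B' : Subgroup L} (hC : C.Normal) (n : ℕ) : ∀ (p q : ℕ), p + q = n →
    ∀ {A B : Subgroup L}, A.Normal → B.Normal → hall_it A p ≤ A' → hall_it B q ≤ B' →
    ⁅A', B⁆ ≤ C → ⁅A, B'⁆ ≤ C → hall_it ⁅A, B⁆ n ≤ C := by
  induction n with
  | zero =>
    intro p q hpq A B hA hB h1 h2 h3 h4
    obtain rfl : p = 0 := by omega
    exact (Subgroup.commutator_mono h1 le_rfl).trans h3
  | succ n ih =>
    intro p q hpq A B hA hB h1 h2 h3 h4
    cases p with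
    | zero =>
      refine (hall_it_mono ((Subgroup.commutator_mono h1 le_rfl).trans h3) _).trans ?_
      exact hall_it_le hC _
    | succ p =>
      cases q with
      | zero =>
        refine (hall_it_mono ((Subgroup.commutator_mono le_rfl h2).trans h4) _).trans ?_
        exact hall_it_le hC _
      | succ q =>
        rw [← hall_it_shift] at h1 h2 ⊢
        have hD : ⁅⁅A, B⁆, (⊤ : Subgroup L)⁆ ≤ ⁅A, ⁅B, (⊤ : Subgroup L)⁆⁆ ⊔ ⁅⁅A, (⊤ : Subgroup L)⁆, B⁆ := by
          apply hall_rot inferInstance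
          · rw [Subgroup.commutator_comm]
            exact le_sup_left
          · rw [Subgroup.commutator_comm (⊤ : Subgroup L) A]
            exact le_sup_right
        refine (hall_it_mono hD n).trans ?_
        apply hall_it_sup n inferInstance inferInstance
        · refine ih (p + 1) q (by omega) hA inferInstance ?_ h2 ?_ h4
          · rw [← hall_it_shift]
            exact h1
          · exact (Subgroup.commutator_mono le_rfl (Subgroup.commutator_le_left B (⊤ : Subgroup L))).trans h3
        · refine ih p (q + 1) (by omega) inferInstance hB h1 ?_ h3 ?_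
          · rw [← hall_it_shift]
            exact h2
          · exact (Subgroup.commutator_mono (Subgroup.commutator_le_left A (⊤ : Subgroup L)) le_rfl).trans h4

lemma hall_normal (N : Subgroup L) [N.Normal] (n : ℕ) : (N.lowerCentralSeries n).Normal := by
  induction n with
  | zero => rw [Subgroup.lowerCentralSeries_zero]; infer_instance
  | succ n ih =>
    rw [Subgroup.lowerCentralSeries_succ]
    exact Subgroup.commutator_normal _ _

lemma hall_it_top (n : ℕ) : hall_it (⊤ : Subgroup L) n = (⊤ : Subgroup L).lowerCentralSeries n := by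
  induction n with
  | zero => rfl
  | succ n ih =>
    rw [Subgroup.lowerCentralSeries_succ, ← ih]
    rfl

end

theorem st_HALL : ST_HALL.{u} := by
  intro L _ N _ hN hQ
  have hNn := fun n => hall_normal N n
  -- the quotient
  obtain ⟨m0, hm0⟩ : ∃ m, hall_it (⊤ : Subgroup L) m ≤ ⁅N, N⁆ := by
    rw [Subgroup.nilpotent_iff_lowerCentralSeries] at hQ
    obtain ⟨m, hm⟩ := hQ
    refine ⟨m, ?_⟩
    rw [hall_it_top]
    have h1 : ((⊤ : Subgroup L).lowerCentralSeries m).map (QuotientGroup.mk' ⁅N, N⁆) = ⊥ := by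
      rw [Subgroup.map_lowerCentralSeries,
        Subgroup.map_top_of_surjective _ (QuotientGroup.mk'_surjective _)]
      exact hm
    rwa [Subgroup.map_eq_bot_iff, QuotientGroup.ker_mk'] at h1
  have hstep : ∀ i, ∃ m, hall_it (N.lowerCentralSeries i) m ≤ N.lowerCentralSeries (i + 1) := by
    intro i
    induction i with
    | zero =>
      refine ⟨m0, ?_⟩
      exact (hall_it_mono le_top m0).trans hm0
    | succ i ih =>
      obtain ⟨m, hm⟩ := ih
      refine ⟨m + m0, ?_⟩
      rw [Subgroup.lowerCentralSeries_succ N i]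
      refine hall_T (A' := N.lowerCentralSeries (i + 1)) (B' := ⁅N, N⁆) (hNn (i + 1 + 1)) _ m m0 rfl
        (hNn i) inferInstance hm ((hall_it_mono le_top m0).trans hm0) le_rfl ?_
      rw [Subgroup.commutator_comm]
      apply hall_rot (hNn _)
      · rw [Subgroup.commutator_comm N]
        exact le_rfl
      · exact le_rfl
  have hall : ∀ i, ∃ m, hall_it (⊤ : Subgroup L) m ≤ N.lowerCentralSeries (i + 1) := by
    intro i
    induction i with
    | zero => exact ⟨m0, hm0⟩
    | succ i ih =>
      obtain ⟨m, hm⟩ := ih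
      obtain ⟨m', hm'⟩ := hstep (i + 1)
      refine ⟨m + m', ?_⟩
      rw [hall_it_add]
      exact (hall_it_mono hm m').trans hm'
  obtain ⟨c, hc⟩ := (Subgroup.isNilpotent_iff_lowerCentralSeries N).1 hN
  obtain ⟨m, hm⟩ := hall c
  rw [Subgroup.nilpotent_iff_lowerCentralSeries]
  refine ⟨m, ?_⟩
  rw [← hall_it_top, eq_bot_iff, ← hc]
  exact hm.trans (N.lowerCentralSeries_antitone (Nat.le_succ c))

end Pool.Agent.Helper40.Nil
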